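import Pool.Agent.Y569.RT.Sft

/-!
# Borel, Baire measurable and measurable equivariant maps to subshifts of finite type

For every `d ≥ 2` none of the three equivalences between the existence of Borel, of Baire
measurable, and of `μ`-measurable (for every `μ`) equivariant maps from the free part of `2^{ℤ^d}`
holds for all subshifts of finite type.

* For the subshift of the labelled walls of nested lens shaped islands with routed lines there are
  Baire measurable maps, but for a rotation of the circle, coded in the free part, there is no
  measurable one.
* For the subshift of the walls of nested rectangular islands, with a 2-colouring of the cells that
  changes across every edge without a wall, there is no Borel map, but for every Borel probability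
  measure there is a measurable one: a family of nested squares covers almost every point. The
  squares of the next level are moved so that they cover one part in 81 of a weight which is halved
  at every point each time it is covered, and their size is chosen so that few points are close to
  the boundaries.
-/

set_option autoImplicit false

namespace Pool.Agent.Results.MP_6540cb_lc.NoneEquivalent

open Pool.Agent.W927

/-- For every `d ≥ 2` there is a subshift of finite type with a Baire measurable equivariant map
into it, but no Borel one, and for some measure no measurable one; and there is a subshift of finite
type with a measurable equivariant map into it for every Borel probability measure, but no Borel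
one. -/
theorem result (d : ℕ) (hd : 2 ≤ d) :
    (∃ (k : ℕ) (S : Set (Conf d (Fin k))), IsSFT S ∧ HasBaire S ∧ ¬ HasBorel S ∧
      ¬ HasMeasure S) ∧
    ∃ (k : ℕ) (S : Set (Conf d (Fin k))), IsSFT S ∧ HasMeasure S ∧ ¬ HasBorel S :=
  Pool.Agent.Y569.RT.main d hd

end Pool.Agent.Results.MP_6540cb_lc.NoneEquivalent
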